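import Pool.Agent.U36.SC.Loc
import Pool.Agent.TH213.SEL.Place
import Pool.Agent.W620.SC.Def

/-!
Kummer classes of sections of fundamental groups of affine curves.
-/

set_option autoImplicit false
set_option linter.unusedSectionVars false

open IsDedekindDomain NumberField WithZero Polynomial

namespace Pool.Agent.U36.SC

open Pool.Agent.TH954 Pool.Agent.U36.BA

section kum

variable {K F M B : Type} [Field K] [CharZero K] [Field F] [Field M] [Field B] [Algebra K F]
  [Algebra F M] [Algebra K M] [IsScalarTower K F M] [Algebra K B] [IsAlgClosure K B]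

/-- the action of a section by ring automorphisms -/
def ract (s : GalSection K F M B) : (B ≃ₐ[K] B) →* RingAut M where
  toFun τ := (s.s τ : M ≃+* M)
  map_one' := by
    rw [map_one]
    rfl
  map_mul' a b := by
    rw [map_mul]
    rfl

lemma fixed_K {y : B} (hy : ∀ g : B ≃ₐ[K] B, g y = y) : ∃ c : K, algebraMap K B c = y := by
  have h1 : IsAlgClosed B := IsAlgClosure.isAlgClosed K
  have h2 : Algebra.IsAlgebraic K B := IsAlgClosure.isAlgebraic
  have h3 : Normal K B := IsAlgClosure.normal K B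
  have h4 : IsGalois K B := ⟨⟩
  exact (InfiniteGalois.mem_range_algebraMap_iff_fixed (k := K) (K := B) y).2 hy

lemma fixed_j (s : GalSection K F M B) {y : B} (hy : ∀ g, s.s g (s.j y) = s.j y) :
    ∃ c : K, algebraMap K B c = y := by
  apply fixed_K
  intro g
  have h1 := hy g
  rw [s.sec] at h1
  exact s.j.injective h1

/-- fixed elements whose power is in `K` are in `K` -/
lemma fixed_alg (s : GalSection K F M B) {y : M} (hy : ∀ g, s.s g y = y) {n : ℕ} (hn : 0 < n)
    {c : K} (h : y ^ n = algebraMap K M c) : ∃ c' : K, algebraMap K M c' = y := by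
  have h1 : IsAlgClosed B := IsAlgClosure.isAlgClosed K
  obtain ⟨a, ha⟩ := Pool.Agent.W620.SC.root_mem (s.j : B →+* M) hn (h := y)
    (b := algebraMap K B c) (by
      rw [h]
      exact (s.j.commutes c).symm)
  have ha' : s.j a = y := ha
  obtain ⟨c', hc'⟩ := fixed_j s (y := a) (by
    intro g
    rw [ha', hy])
  refine ⟨c', ?_⟩
  rw [← ha', ← hc', s.j.commutes]

/-- Elements fixed by the section with an `n`-th root in `M` are constants times `n`-th powers of
elements fixed by the section. -/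
theorem exists_kum [Algebra.IsAlgebraic F M] (s : GalSection K F M B) (f : M) (hf : f ≠ 0)
    (hfs : ∀ g, s.s g f = f) (n : ℕ) (hn : 0 < n) (w : M) (hw : w ^ n = f) :
    ∃ (b : K) (z : M), b ≠ 0 ∧ (∀ g, s.s g z = z) ∧ f = algebraMap K M b * z ^ n := by
  have h1 : IsAlgClosed B := IsAlgClosure.isAlgClosed K
  have h2 : Algebra.IsAlgebraic K B := IsAlgClosure.isAlgebraic
  have h3 : Normal K B := IsAlgClosure.normal K B
  have hw0 : w ≠ 0 := by
    rintro rfl
    rw [zero_pow hn.ne'] at hw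
    exact hf hw.symm
  have h5 : {g | s.s g w = w} ∈ nhds (1 : B ≃ₐ[K] B) := by
    have h6 := s.cont.continuousAt (x := 1)
    have h7 : {g : M ≃ₐ[F] M | g w = w} ∈ nhds (s.s 1) := by
      rw [map_one]
      exact fix_nhds w
    exact h6 h7
  rw [krullTopology_mem_nhds_one_iff] at h5
  obtain ⟨E, hE, hEs⟩ := h5
  obtain ⟨β, hβ0, hβ⟩ := Pool.Agent.W620.SC.exists_fixed_multiple (k := K) (A := B) (M := M)
    (ract s) (s.j : B →+* M) (fun σ a => s.sec σ a) ⊤ w hw0 (fun σ _ => by
      have h6 : ((s.s σ w) / w) ^ n = (s.j : B →+* M) 1 := by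
        rw [div_pow, ← map_pow, hw, hfs, div_self hf, map_one]
      obtain ⟨ζ, hζ⟩ := Pool.Agent.W620.SC.root_mem (s.j : B →+* M) hn h6
      refine ⟨ζ, ?_⟩
      rw [hζ, div_mul_cancel₀ _ hw0]
      rfl) E (fun σ hσ => hEs hσ)
  set z : M := s.j β * w with hz
  have hzf : ∀ g, s.s g z = z := fun g => hβ g (Subgroup.mem_top _)
  have hzn : z ^ n = s.j (β ^ n) * f := by
    rw [hz, mul_pow, hw, map_pow]
  have hβn : ∀ g, s.s g (s.j (β ^ n)) = s.j (β ^ n) := by
    intro g
    have h6 : s.j (β ^ n) = z ^ n / f := by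
      rw [hzn, mul_div_cancel_right₀ _ hf]
    rw [h6, map_div₀, map_pow, hzf, hfs]
  obtain ⟨c, hc⟩ := fixed_j s hβn
  have hc0 : c ≠ 0 := by
    rintro rfl
    rw [map_zero] at hc
    exact pow_ne_zero n hβ0 hc.symm
  refine ⟨c⁻¹, z, inv_ne_zero hc0, hzf, ?_⟩
  have hcM : algebraMap K M c ≠ 0 := (_root_.map_ne_zero _).2 hc0
  rw [hzn, ← hc, s.j.commutes, map_inv₀, inv_mul_cancel_left₀ hcM]

/-- the compatible system of Kummer classes -/
theorem exists_sys [Algebra.IsAlgebraic F M] (s : GalSection K F M B) (f : M) (hf : f ≠ 0)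
    (hfs : ∀ g, s.s g f = f) (hw : ∀ n : ℕ, 0 < n → ∃ w : M, w ^ n = f) :
    ∃ b : ℕ → K, Sys b ∧ ∀ n : ℕ, 1 ≤ n → ∃ z : M, (∀ g, s.s g z = z) ∧
      f = algebraMap K M (b n) * z ^ n := by
  have hex : ∀ n : ℕ, ∃ b : K, b ≠ 0 ∧ (1 ≤ n → ∃ z : M, (∀ g, s.s g z = z) ∧
      f = algebraMap K M b * z ^ n) := by
    intro n
    by_cases hn : 1 ≤ n
    · obtain ⟨w, hw⟩ := hw n hn
      obtain ⟨b, z, hb, hz, h⟩ := exists_kum s f hf hfs n hn w hw
      exact ⟨b, hb, fun _ => ⟨z, hz, h⟩⟩
    · exact ⟨1, one_ne_zero, fun h => absurd h hn⟩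
  choose b hb0 hb using hex
  refine ⟨b, ⟨hb0, fun n m hn hm => ?_⟩, hb⟩
  obtain ⟨z, hz, h⟩ := hb n hn
  obtain ⟨z', hz', h'⟩ := hb (n * m) (Nat.mul_pos hn hm)
  have hz0 : z ≠ 0 := by
    rintro rfl
    rw [zero_pow (by omega), mul_zero] at h
    exact hf h
  have hz0' : z' ≠ 0 := by
    rintro rfl
    rw [zero_pow (Nat.mul_pos hn hm).ne', mul_zero] at h'
    exact hf h'
  have hbM : algebraMap K M (b n) ≠ 0 := (_root_.map_ne_zero _).2 (hb0 n)
  have hy : (z / z' ^ m) ^ n = algebraMap K M (b (n * m) / b n) := by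
    rw [div_pow, ← pow_mul, mul_comm m n, map_div₀, div_eq_div_iff (pow_ne_zero _ hz0') hbM,
      mul_comm (z ^ n), ← h]
    exact h'
  obtain ⟨c, hc⟩ := fixed_alg s (y := z / z' ^ m) (by
    intro g
    rw [map_div₀, map_pow, hz, hz']) hn hy
  refine ⟨c, ?_⟩
  rw [← hc, ← map_pow] at hy
  have h3 := (algebraMap K M).injective hy
  rw [h3, mul_div_cancel₀]
  exact hb0 n

end kum

section units

open Pool.Agent.W620.SC

variable {K F Ω M : Type} [Field K] [Field F] [Field Ω] [Field M] [Algebra K F]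
  [Algebra F Ω] [Algebra K Ω] [IsScalarTower K F Ω] [IsAlgClosed Ω] [Algebra F M]

/-- `z` is a unit at all valuation rings above the elements of `U` -/
def UnitOver (U : Set (ValuationSubring F)) (z : M) : Prop :=
  ∀ W : ValuationSubring M, W.comap (algebraMap F M) ∈ U → z ∈ W ∧ z⁻¹ ∈ W

/-- roots of units are unramified -/
theorem root_unram (U : Set (ValuationSubring F)) (hU : ∀ O ∈ U, ∀ c : K, algebraMap K F c ∈ O)
    (e : M →ₐ[F] Ω) (he : unramified F Ω U = e.fieldRange) (f : M) (hf : f ≠ 0)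
    (hfU : UnitOver U f) (n : ℕ) (hn : 0 < n) : ∃ w : M, w ^ n = f := by
  obtain ⟨ω, hω⟩ := IsAlgClosed.exists_pow_nat_eq (e f) hn
  have hfΩ : e f ≠ 0 := (_root_.map_ne_zero _).2 hf
  have hω0 : ω ≠ 0 := by
    rintro rfl
    rw [zero_pow hn.ne'] at hω
    exact hfΩ hω.symm
  have hmem : ω ∈ unramified F Ω U := by
    rw [mem_unramified]
    intro W hW σ hσ
    have hW' : (W.comap (e : M →+* Ω)).comap (algebraMap F M) ∈ U := by
      have h3 : (W.comap (e : M →+* Ω)).comap (algebraMap F M) = W.comap (algebraMap F Ω) := by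
        ext x
        rw [ValuationSubring.mem_comap, ValuationSubring.mem_comap, ValuationSubring.mem_comap]
        have h4 : (e : M →+* Ω) (algebraMap F M x) = algebraMap F Ω x := e.commutes x
        rw [h4]
      rw [h3]
      exact hW
    obtain ⟨h1, h2⟩ := hfU _ hW'
    rw [ValuationSubring.mem_comap] at h1 h2
    have hfe : e f ∈ unramified F Ω U := by
      rw [he]
      exact ⟨f, rfl⟩
    refine inertia_root (k := K) (fun c => ?_) hσ hn (t := 1) ?_ (map_one _) one_ne_zero hω0 ?_ ?_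
    · have h3 := hU _ hW c
      rw [ValuationSubring.mem_comap, ← IsScalarTower.algebraMap_apply] at h3
      exact h3
    · rw [hω]
      exact mem_unramified.1 hfe W hW σ hσ
    · rw [one_pow, div_one, hω]
      exact h1
    · rw [one_pow, one_div, hω, ← map_inv₀]
      exact h2
  obtain ⟨w, hw⟩ : ω ∈ e.fieldRange := he ▸ hmem
  have hw' : e w = ω := hw
  have h4 : e (w ^ n) = e f := by rw [map_pow, hw', hω]
  exact ⟨w, (e : M →+* Ω).injective h4⟩

/-- powers and units -/
lemma UnitOver.of_pow {U : Set (ValuationSubring F)} {z w : M} {n : ℕ} (hn : 0 < n)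
    (hz : UnitOver U z) (h : w ^ n = z) : UnitOver U w := by
  have key : ∀ (W : ValuationSubring M) (x : M), x ^ n ∈ W → x ∈ W := by
    intro W x hx
    have h3 : IsIntegral W x := by
      refine IsIntegral.of_pow hn ?_
      exact isIntegral_algebraMap (x := (⟨x ^ n, hx⟩ : W))
    obtain ⟨y, hy⟩ := IsIntegrallyClosed.isIntegral_iff.1 h3
    rw [← hy]
    exact y.2
  intro W hW
  obtain ⟨h1, h2⟩ := hz W hW
  refine ⟨key W w (by rw [h]; exact h1), key W w⁻¹ (by rw [inv_pow, h]; exact h2)⟩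

end units

end Pool.Agent.U36.SC
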