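import Pool.Agent.U36.SC.Fs

/-!
Finite subschemes of the multiplicative group, local version.
-/

set_option autoImplicit false
set_option linter.unusedSectionVars false

open NumberField IsDedekindDomain Polynomial

namespace Pool.Agent.U36.SC

open Pool.Agent.U36.BA

variable {K : Type} [Field K] [NumberField K]

lemma under_pow {L : Type} [Field L] [NumberField L] [Algebra K L]
    (w : HeightOneSpectrum (𝓞 L)) : ∃ e : ℕ, e ≠ 0 ∧
      ∀ c : K, w.valuation L (algebraMap K L c) = (w.under (𝓞 K)).valuation K c ^ e := by
  have hl : w.asIdeal.LiesOver (w.under (𝓞 K)).asIdeal := ⟨rfl⟩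
  exact ⟨_, Ideal.IsDedekindDomain.ramificationIdx'_ne_zero_of_liesOver w.asIdeal
    (w.under (𝓞 K)).ne_bot, fun c => (HeightOneSpectrum.valuation_liesOver L (w.under (𝓞 K)) w c).symm⟩

lemma pow_sub_lt {R Γ : Type*} [CommRing R] [LinearOrderedCommGroupWithZero Γ] (V : Valuation R Γ)
    {x y : R} (hx : V x ≤ 1) (hy : V y ≤ 1) (h : V (x - y) < 1) (n : ℕ) :
    V (x ^ n - y ^ n) < 1 := by
  induction n with
  | zero => simp
  | succ n ih =>
    have e : x ^ (n + 1) - y ^ (n + 1) = x ^ n * (x - y) + (x ^ n - y ^ n) * y := by ring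
    rw [e]
    refine lt_of_le_of_lt (V.map_add _ _) (max_lt ?_ ?_)
    · rw [map_mul, map_pow]
      exact mul_lt_one_of_nonneg_of_lt_one_right (pow_le_one₀ zero_le hx) zero_le h
    · rw [map_mul]
      exact mul_lt_one_of_nonneg_of_lt_one_left zero_le ih hy

/-- roots of monic integral polynomials are integral -/
lemma val_root_le {R S Γ : Type*} [Field R] [Field S] [LinearOrderedCommGroupWithZero Γ]
    (V : Valuation S Γ) (φ : R →+* S) (P : R[X]) (hP : P.Monic) (hc : ∀ i, V (φ (P.coeff i)) ≤ 1)
    (x : S) (hx : P.eval₂ φ x = 0) : V x ≤ 1 := by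
  by_contra hlt
  push Not at hlt
  rw [hP.as_sum, eval₂_add, eval₂_finsetSum] at hx
  simp only [eval₂_mul, eval₂_C, eval₂_pow, eval₂_X] at hx
  have h0 : V x ≠ 0 := (zero_lt_one.trans hlt).ne'
  rcases Nat.eq_zero_or_pos P.natDegree with hd | hd
  · rw [hd] at hx
    simp at hx
  have h1 : x ^ P.natDegree = - ∑ i ∈ Finset.range P.natDegree, φ (P.coeff i) * x ^ i :=
    eq_neg_of_add_eq_zero_left hx
  have h2 : V (x ^ P.natDegree) ≤ V x ^ (P.natDegree - 1) := by
    rw [h1, Valuation.map_neg]
    refine Valuation.map_sum_le _ fun i hi => ?_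
    rw [map_mul, map_pow]
    refine (mul_le_of_le_one_left' (hc i)).trans ?_
    exact pow_le_pow_right₀ hlt.le (by
      have := Finset.mem_range.1 hi
      omega)
  rw [map_pow] at h2
  have h3 : V x ^ (P.natDegree - 1) < V x ^ P.natDegree :=
    pow_lt_pow_right₀ hlt (by omega)
  exact absurd h2 (not_le.2 h3)

/-- A family of local points of a finite subscheme of the multiplicative group which is global modulo
all powers is a global point. -/
theorem fs_local {b : ℕ → K} (hb : Sys b)
    (x : ∀ v : HeightOneSpectrum (𝓞 K), v.adicCompletion K) (hx0 : ∀ v, x v ≠ 0)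
    (hx : ∀ N : ℕ, 1 ≤ N → ∀ v, ∃ z : v.adicCompletion K,
      x v = algebraMap K (v.adicCompletion K) (b N) * z ^ N)
    (P : K[X]) (hP : P.Monic)
    (hroot : ∀ v : HeightOneSpectrum (𝓞 K),
      P.eval₂ (algebraMap K (v.adicCompletion K)) (x v) = 0) :
    ∃ a : K, a ≠ 0 ∧ (∀ v, x v = algebraMap K (v.adicCompletion K) a) ∧
      ∀ N : ℕ, 1 ≤ N → ∃ y : K, b N = a * y ^ N := by
  classical
  obtain ⟨Q, hQ, hQ0⟩ := P.exists_eq_pow_rootMultiplicity_mul_and_not_dvd hP.ne_zero 0
  rw [map_zero, sub_zero] at hQ hQ0
  set m := rootMultiplicity 0 P with hm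
  have hQm : Q.Monic := by
    have h1 : (X ^ m * Q).Monic := hQ ▸ hP
    exact Monic.of_mul_monic_left (monic_X_pow m) h1
  have hQr : ∀ v : HeightOneSpectrum (𝓞 K),
      Q.eval₂ (algebraMap K (v.adicCompletion K)) (x v) = 0 := by
    intro v
    have h1 := hroot v
    rw [hQ, eval₂_mul, eval₂_pow, eval₂_X] at h1
    exact (mul_eq_zero.1 h1).resolve_left (pow_ne_zero _ (hx0 v))
  have hc0 : Q.coeff 0 ≠ 0 := fun h0 => hQ0 (X_dvd_iff.2 h0)
  have hNF : NumberField Q.SplittingField := NumberField.of_module_finite K _
  set L := Q.SplittingField with hL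
  set R : Multiset L := (Q.map (algebraMap K L)).roots with hR
  have hprod : Q.map (algebraMap K L) = (R.map fun α => X - C α).prod :=
    Splits.eq_prod_roots_of_monic (SplittingField.splits Q) (hQm.map _)
  have hRne : ∀ α ∈ R, α ≠ 0 := by
    intro α hα h0
    rw [hR, mem_roots (hQm.map _).ne_zero, IsRoot.def, h0, ← coeff_zero_eq_eval_zero,
      coeff_map] at hα
    exact hc0 ((_root_.map_eq_zero _).1 hα)
  obtain ⟨r, hr0, hr⟩ := fs_res (K := K) (L := L)
    (fun i : {α // α ∈ R.toFinset} => (i : L)) (fun i => hRne i.1 (Multiset.mem_toFinset.1 i.2))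
    hb (by
      intro N hN
      set T : Set (HeightOneSpectrum (𝓞 L)) :=
        {w | w.valuation L (algebraMap K L (b N)) ≠ 1} ∪
          ⋃ i ∈ Finset.range (Q.natDegree + 1), {w | Q.coeff i ≠ 0 ∧
            w.valuation L (algebraMap K L (Q.coeff i)) ≠ 1} with hT
      refine ⟨T, ?_, ?_⟩
      · refine (finite_ne_one ((_root_.map_ne_zero _).2 (hb.ne N))).union ?_
        refine Set.Finite.biUnion (Finset.finite_toSet _) fun i _ => ?_
        by_cases hi : Q.coeff i = 0
        · simp [hi]
        · refine (finite_ne_one (K := L) ((_root_.map_ne_zero (algebraMap K L)).2 hi)).subset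
            fun w hw => hw.2
      · intro w hw
        simp only [hT, Set.mem_union, Set.mem_iUnion, Set.mem_ofPred_eq, not_or, not_exists,
          not_and, not_not] at hw
        obtain ⟨hw1, hw2⟩ := hw
        obtain ⟨e, he, hew⟩ := under_pow (K := K) w
        set v := w.under (𝓞 K) with hv
        have hb1 : v.valuation K (b N) = 1 := by
          rw [hew] at hw1
          exact (pow_eq_one_iff.1 hw1).resolve_right he
        have hci : ∀ i, Valued.v (algebraMap K (v.adicCompletion K) (Q.coeff i)) ≤ 1 := by
          intro i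
          rw [val_K]
          by_cases hi : Q.coeff i = 0
          · rw [hi, map_zero]
            exact zero_le
          · by_cases hi' : i ∈ Finset.range (Q.natDegree + 1)
            · have h1 := hw2 i hi' hi
              rw [hew] at h1
              exact ((pow_eq_one_iff.1 h1).resolve_right he).le
            · rw [coeff_eq_zero_of_natDegree_lt, map_zero]
              · exact zero_le
              · rw [Finset.mem_range] at hi'
                omega
        have hxv := val_root_le Valued.v (algebraMap K (v.adicCompletion K)) Q hQm hci (x v) (hQr v)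
        obtain ⟨z, hz⟩ := hx N hN v
        have hz1 : Valued.v z ≤ 1 := by
          rw [hz, map_mul, val_K, hb1, one_mul, map_pow] at hxv
          exact (pow_le_one_iff (by omega)).1 hxv
        obtain ⟨s, hs⟩ := exists_near_int v z hz1 one_ne_zero
        set y : K := b N * (s : K) ^ N with hy
        have hs1 : Valued.v (algebraMap K (v.adicCompletion K) (algebraMap (𝓞 K) K s)) ≤ 1 := by
          rw [val_K]
          exact v.valuation_le_one s
        have h1 : Valued.v (x v - algebraMap K (v.adicCompletion K) y) < 1 := by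
          rw [hz, hy, map_mul, map_pow, ← mul_sub, map_mul, val_K, hb1, one_mul]
          exact pow_sub_lt _ hz1 hs1 hs N
        have hy1 : Valued.v (algebraMap K (v.adicCompletion K) y) ≤ 1 := by
          rw [hy, map_mul, map_pow, map_mul, map_pow, val_K, hb1, one_mul]
          exact pow_le_one₀ zero_le hs1
        have h2 : Valued.v (algebraMap K (v.adicCompletion K) (Q.eval y)) < 1 := by
          have e1 : algebraMap K (v.adicCompletion K) (Q.eval y) =
              - (Q.eval₂ (algebraMap K (v.adicCompletion K)) (x v) -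
                Q.eval₂ (algebraMap K (v.adicCompletion K)) (algebraMap K _ y)) := by
            rw [hQr v, zero_sub, neg_neg, eval₂_at_apply]
          rw [e1, Valuation.map_neg, eval₂_eq_sum_range, eval₂_eq_sum_range,
            ← Finset.sum_sub_distrib]
          refine Valuation.map_sum_lt _ one_ne_zero fun i _ => ?_
          rw [← mul_sub, map_mul]
          exact mul_lt_one_of_nonneg_of_lt_one_right (hci i) zero_le (pow_sub_lt _ hxv hy1 h1 i)
        have h3 : w.valuation L (algebraMap K L (Q.eval y)) < 1 := by
          rw [hew, ← val_K v]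
          exact pow_lt_one₀ zero_le h2 he
        have h4 : algebraMap K L (Q.eval y) = (R.map fun α => algebraMap K L y - α).prod := by
          rw [← eval_map_apply, hprod, eval_multiset_prod, Multiset.map_map]
          congr 1
          refine Multiset.map_congr rfl fun α _ => ?_
          simp
        rw [h4] at h3
        obtain ⟨α, hα, h5⟩ : ∃ α ∈ R, w.valuation L (algebraMap K L y - α) < 1 := by
          by_contra hno
          push Not at hno
          refine absurd h3 (not_lt.2 ?_)
          refine Multiset.prod_induction (fun u => 1 ≤ w.valuation L u) _ ?_ ?_ ?_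
          · intro u u' hu hu'
            change 1 ≤ w.valuation L (u * u')
            rw [map_mul]
            exact one_le_mul hu hu'
          · change 1 ≤ w.valuation L 1
            rw [map_one]
          · intro u hu
            obtain ⟨α, hα, rfl⟩ := Multiset.mem_map.1 hu
            exact hno α hα
        refine ⟨⟨α, Multiset.mem_toFinset.2 hα⟩, algebraMap (𝓞 K) (𝓞 L) s, ?_⟩
        change w.valuation L (α / algebraMap K L (b N) - (algebraMap K L (s : K)) ^ N) < 1
        have hbL : algebraMap K L (b N) ≠ 0 := (_root_.map_ne_zero _).2 (hb.ne N)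
        have e2 : α / algebraMap K L (b N) - (algebraMap K L (s : K)) ^ N =
            - ((algebraMap K L y - α) / algebraMap K L (b N)) := by
          rw [hy, map_mul, map_pow, sub_div, mul_div_cancel_left₀ _ hbL, neg_sub]
        rw [e2, Valuation.map_neg, map_div₀, hw1, div_one]
        exact h5)
  refine ⟨r, hr0, fun v => ?_, hr⟩
  have hrv : algebraMap K (v.adicCompletion K) r ≠ 0 := (_root_.map_ne_zero _).2 hr0
  have h1 := eq_one_of_div v (x v / algebraMap K (v.adicCompletion K) r) (by
    intro N hN
    obtain ⟨z, hz⟩ := hx N hN v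
    obtain ⟨y, hy⟩ := hr N hN
    refine ⟨algebraMap K (v.adicCompletion K) y * z, ?_⟩
    rw [hz, hy, map_mul, map_pow, mul_pow]
    field_simp) (div_ne_zero (hx0 v) hrv)
  exact (div_eq_one_iff_eq hrv).1 h1

end Pool.Agent.U36.SC
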