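import Pool.Agent.U36.SC.Sec
import Pool.Agent.U36.BA.Core

/-!
Adelic sections of affine curves: the values of the units.
-/

set_option autoImplicit false
set_option linter.unusedSectionVars false

open IsDedekindDomain NumberField WithZero Polynomial

namespace Pool.Agent.U36.SC

open Pool.Agent.TH954 Pool.Agent.U36.BA

section alg

variable {K F M : Type} [Field K] [Field F] [Field M] [Algebra K F] [Algebra K M] [Algebra F M]
  [IsScalarTower K F M] [Algebra.IsAlgebraic F M]

/-- The values of a function `f` at the places where `τ ≠ 0` vanishes are the roots of a polynomial. -/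
theorem exists_pol (hF : ∃ t : F, Transcendental K t ∧
    Algebra.IsAlgebraic (IntermediateField.adjoin K {t}) F) (τ : M) (hτ : τ ≠ 0) (f : M) :
    ∃ g : K[X], g.Monic ∧ ∀ (C : Type) [Field C] [Algebra K C] (p : Plc K M C), p.val τ 0 →
      ∀ c, p.val f c → aeval c g = 0 := by
  by_cases hf : IsAlgebraic K f
  · refine ⟨minpoly K f, minpoly.monic hf.isIntegral, ?_⟩
    intro C _ _ p _ c hc
    have h1 := Plc.val_aeval hc (minpoly K f)
    rw [minpoly.aeval] at h1
    exact h1.unique Plc.val_zero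
  · have hdim := alg_adjoin_of_dim (M := M) hF f hf
    obtain ⟨u, hu, r, hr0, hur⟩ := (hdim.isAlgebraic τ).exists_nonzero_eq_adjoin_mul
      (mem_nonZeroDivisors_of_ne_zero hτ)
    obtain ⟨g, hg⟩ : ∃ g : Polynomial K, Polynomial.aeval f g = (r : M) :=
      exists_aeval_of_mem r.2
    have hg0 : g ≠ 0 := by
      rintro rfl
      rw [map_zero] at hg
      exact hr0 (Subtype.ext hg.symm)
    refine ⟨g * C g.leadingCoeff⁻¹, monic_mul_leadingCoeff_inv hg0, ?_⟩
    intro C _ _ p hp c hc
    have h1 : ∀ y ∈ Algebra.adjoin K {f}, y ∈ p.W := by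
      intro y hy
      obtain ⟨q, rfl⟩ := exists_aeval_of_mem hy
      exact (Plc.val_aeval hc q).mem
    have h2 : u ∈ p.W := by
      obtain ⟨q, rfl⟩ := exists_aeval_of_mem hu
      rw [Polynomial.aeval_eq_sum_range]
      refine sum_mem (fun i _ => ?_)
      rw [Algebra.smul_def]
      exact mul_mem (h1 _ (q.coeff i).2) (pow_mem hp.mem i)
    obtain ⟨d, hd⟩ := Plc.val_of_mem h2
    have h3 := hp.mul hd
    rw [hur, zero_mul] at h3
    have h4 : p.val (r : M) 0 := h3
    rw [← hg] at h4
    have h5 := (Plc.val_aeval hc g).unique h4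
    rw [map_mul, h5, zero_mul]

end alg

variable {K : Type} [Field K] [NumberField K] {F M B : Type} [Field F] [Field M] [Field B]
  [Algebra K F] [Algebra F M] [Algebra K M] [Algebra K B] [IsScalarTower K F M]
  [IsAlgClosure K B] [Algebra.IsAlgebraic F M]

/-- the values of fixed elements at the local points -/
theorem sys_val (s : GalSection K F M B)
    (p : ∀ v : HeightOneSpectrum (𝓞 K), Plc K M (AlgebraicClosure (v.adicCompletion K)))
    (hp : ∀ v, s.GivenBy (v.adicCompletion K) (p v)) (f : M) (b : K) (hb : b ≠ 0)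
    (n : ℕ) (hn : 1 ≤ n) (z : M) (hz : ∀ g, s.s g z = z)
    (h : f = algebraMap K M b * z ^ n)
    (x : ∀ v : HeightOneSpectrum (𝓞 K), v.adicCompletion K)
    (hx : ∀ v, (p v).val f
      (algebraMap (v.adicCompletion K) (AlgebraicClosure (v.adicCompletion K)) (x v)))
    (v : HeightOneSpectrum (𝓞 K)) :
    ∃ ζ : v.adicCompletion K, x v = algebraMap K (v.adicCompletion K) b * ζ ^ n := by
  have hb1 : (p v).val (algebraMap K M b) (algebraMap K _ b) := Plc.val_alg (pl := p v) b
  have hbC : algebraMap K (AlgebraicClosure (v.adicCompletion K)) b ≠ 0 := (_root_.map_ne_zero _).2 hb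
  have hbM : algebraMap K M b ≠ 0 := (_root_.map_ne_zero _).2 hb
  have h1 := (hb1.inv hbC).mul (hx v)
  have h2 : (algebraMap K M b)⁻¹ * f = z ^ n := by
    rw [h, ← mul_assoc, inv_mul_cancel₀ hbM, one_mul]
  rw [h2] at h1
  obtain ⟨ζ, hζ⟩ := Plc.val_of_mem (Plc.mem_of_pow_mem (Nat.pos_of_ne_zero (by omega)) h1.mem)
  obtain ⟨ζ', rfl⟩ := Pool.Agent.TH213.SEL.value_fixed (hp v) hz hζ
  refine ⟨ζ', ?_⟩
  apply (algebraMap (v.adicCompletion K) (AlgebraicClosure (v.adicCompletion K))).injective
  have h3 := (hζ.pow n).unique h1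
  rw [map_mul, map_pow, h3, ← IsScalarTower.algebraMap_apply, ← mul_assoc, mul_inv_cancel₀ hbC,
    one_mul]

/-- A unit whose values at the local points are roots of one polynomial is globally constant, and
gives the Kummer class. -/
theorem unit_val (s : GalSection K F M B)
    (p : ∀ v : HeightOneSpectrum (𝓞 K), Plc K M (AlgebraicClosure (v.adicCompletion K)))
    (hp : ∀ v, s.GivenBy (v.adicCompletion K) (p v)) (f : M) (hf : f ≠ 0)
    (hfs : ∀ g, s.s g f = f) (hw : ∀ n : ℕ, 0 < n → ∃ w : M, w ^ n = f)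
    (x : ∀ v : HeightOneSpectrum (𝓞 K), v.adicCompletion K) (hx0 : ∀ v, x v ≠ 0)
    (hx : ∀ v, (p v).val f
      (algebraMap (v.adicCompletion K) (AlgebraicClosure (v.adicCompletion K)) (x v)))
    (P : K[X]) (hP : P.Monic)
    (hroot : ∀ v : HeightOneSpectrum (𝓞 K),
      P.eval₂ (algebraMap K (v.adicCompletion K)) (x v) = 0) :
    ∃ a : K, a ≠ 0 ∧ (∀ v, x v = algebraMap K (v.adicCompletion K) a) ∧
      ∀ n : ℕ, 1 ≤ n → ∃ z : M, (∀ g, s.s g z = z) ∧ f = algebraMap K M a * z ^ n := by
  obtain ⟨b, hb, hbz⟩ := exists_sys s f hf hfs hw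
  obtain ⟨a, ha0, ha, hab⟩ := fs_local hb x hx0 (fun n hn v => by
    obtain ⟨z, hz, h⟩ := hbz n hn
    exact sys_val s p hp f (b n) (hb.ne n) n hn z hz h x hx v) P hP hroot
  refine ⟨a, ha0, ha, fun n hn => ?_⟩
  obtain ⟨z, hz, h⟩ := hbz n hn
  obtain ⟨y, hy⟩ := hab n hn
  refine ⟨algebraMap K M y * z, fun g => ?_, ?_⟩
  · rw [map_mul, hz, IsScalarTower.algebraMap_apply K F M, AlgEquiv.commutes]
  · rw [mul_pow, ← map_pow, ← mul_assoc, ← map_mul, ← hy]
    exact h

/-- the values of the function `t` -/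
theorem main_t {k : Type} [Field k] [NumberField k] [Algebra k K] [Finite (𝓞 k)ˣ] (C : Finset K)
    (hC : Module.finrank k K ≤ C.card) (s : GalSection K F M B) (t : F) (ht : Transcendental K t)
    (hw : ∀ c ∈ C, ∀ n : ℕ, 0 < n → ∃ w : M, w ^ n = algebraMap F M (t - algebraMap K F c))
    (p : ∀ v : HeightOneSpectrum (𝓞 K), Plc K M (AlgebraicClosure (v.adicCompletion K)))
    (hp : ∀ v, s.GivenBy (v.adicCompletion K) (p v))
    (x : ∀ v : HeightOneSpectrum (𝓞 K), v.adicCompletion K)
    (hx : ∀ v, (p v).val (algebraMap F M t)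
      (algebraMap (v.adicCompletion K) (AlgebraicClosure (v.adicCompletion K)) (x v)))
    (N : ℕ) (hN : ∀ c ∈ C, ∀ v,
      exp (-(N : ℤ)) ≤ Valued.v (x v - algebraMap K (v.adicCompletion K) c) ∧
      Valued.v (x v - algebraMap K (v.adicCompletion K) c) ≤ exp (N : ℤ)) :
    ∃ a : K, ∀ v, x v = algebraMap K (v.adicCompletion K) a := by
  classical
  have hpa : ∀ v (a : K), (p v).val (algebraMap K M a)
      (algebraMap (v.adicCompletion K) (AlgebraicClosure (v.adicCompletion K))
        (algebraMap K (v.adicCompletion K) a)) := by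
    intro v a
    rw [← IsScalarTower.algebraMap_apply]
    exact Plc.val_alg (pl := p v) a
  have ht0 : ∀ c : K, algebraMap F M (t - algebraMap K F c) ≠ 0 := by
    intro c h0
    have h0' := (_root_.map_eq_zero _).1 h0
    apply ht
    rw [sub_eq_zero] at h0'
    rw [h0']
    exact isAlgebraic_algebraMap _
  have hfix : ∀ (f : F) g, s.s g (algebraMap F M f) = algebraMap F M f := fun f g =>
    (s.s g).commutes f
  have hxc : ∀ c : K, ∀ v, (p v).val (algebraMap F M (t - algebraMap K F c))
      (algebraMap (v.adicCompletion K) (AlgebraicClosure (v.adicCompletion K))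
        (x v - algebraMap K (v.adicCompletion K) c)) := by
    intro c v
    rw [map_sub, map_sub, ← IsScalarTower.algebraMap_apply K F M]
    exact (hx v).sub (hpa v _)
  obtain ⟨P, hP1, hP3⟩ := core (K := K) (k := k) C hC x N (fun c hc => by
    refine ⟨fun v => (hN c hc v).1, fun v => (hN c hc v).2, fun n hn => ?_⟩
    obtain ⟨b, hb, hbz⟩ := exists_sys s _ (ht0 c) (hfix _) (hw c hc)
    obtain ⟨z, hz, h⟩ := hbz n hn
    exact ⟨b n, hb.ne n, fun v => sys_val s p hp _ (b n) (hb.ne n) n hn z hz h _ (hxc c) v⟩)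
  obtain ⟨c, hc⟩ : C.Nonempty := Finset.card_pos.1 (lt_of_lt_of_le Module.finrank_pos hC)
  have hPc : (P.comp (X + Polynomial.C c)).Monic := hP1.comp_X_add_C c
  obtain ⟨a, -, ha, -⟩ := unit_val s p hp _ (ht0 c) (hfix _) (hw c hc)
    (fun v => x v - algebraMap K (v.adicCompletion K) c) (fun v h0 => by
      have h1 := (hN c hc v).1
      rw [h0, map_zero] at h1
      exact absurd h1 (not_le.2 (zero_lt_iff.2 exp_ne_zero))) (hxc c) _ hPc (fun v => by
      rw [eval₂_comp, eval₂_add, eval₂_X, eval₂_C, sub_add_cancel]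
      exact hP3 v)
  refine ⟨a + c, fun v => ?_⟩
  rw [map_add, ← ha v, sub_add_cancel]

/-- The place `p` is a point of the curve with the valuation rings `U`: its valuation ring is all of
`M` or lies above an element of `U`. -/
def PointOf (U : Set (ValuationSubring F)) {C : Type} [Field C] [Algebra K C] (p : Plc K M C) :
    Prop := p.W = ⊤ ∨ p.W.comap (algebraMap F M) ∈ U

/-- the units of the curve `U` and of its neighbourhoods -/
def units (U : Set (ValuationSubring F)) (s : GalSection K F M B) : Set M :=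
  {z | z ≠ 0 ∧ (∀ g, s.s g z = z) ∧ UnitOver U z}

lemma exists_place (K : Type) [Field K] [NumberField K] : Nonempty (HeightOneSpectrum (𝓞 K)) := by
  obtain ⟨m, hm⟩ := Ideal.exists_maximal (𝓞 K)
  refine ⟨⟨m, hm.isPrime, ?_⟩⟩
  rintro rfl
  exact RingOfIntegers.not_isField K (Ring.isField_iff_isSimpleOrder_ideal.2
    (isSimpleOrder_iff_isCoatom_bot.2 (Ideal.isMaximal_def.1 hm)))

/-- The values of all units. -/
theorem main_units {Ω : Type} [Field Ω] [Algebra F Ω] [Algebra K Ω] [IsScalarTower K F Ω]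
    [IsAlgClosed Ω]
    (U : Set (ValuationSubring F)) (hU : ∀ O ∈ U, ∀ c : K, algebraMap K F c ∈ O)
    (e : M →ₐ[F] Ω) (he : Pool.Agent.W620.SC.unramified F Ω U = e.fieldRange)
    (s : GalSection K F M B) (t : F) (ht : Transcendental K t)
    (hF : Algebra.IsAlgebraic (IntermediateField.adjoin K {t}) F)
    (p : ∀ v : HeightOneSpectrum (𝓞 K), Plc K M (AlgebraicClosure (v.adicCompletion K)))
    (hp : ∀ v, s.GivenBy (v.adicCompletion K) (p v)) (hpU : ∀ v, PointOf U (p v))
    (a : K) (hta : ∀ v, (p v).val (algebraMap F M t) (algebraMap K _ a)) :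
    ∃ φ : Algebra.adjoin K (units U s) →ₐ[K] K,
      (∀ v (z : Algebra.adjoin K (units U s)), (p v).val (z : M) (algebraMap K _ (φ z))) ∧
      ∀ z : Algebra.adjoin K (units U s), (z : M) ∈ units U s → ∀ n : ℕ, 1 ≤ n →
        ∃ w ∈ units U s, (z : M) = algebraMap K M (φ z) * w ^ n := by
  classical
  have hτ : algebraMap F M t - algebraMap K M a ≠ 0 := by
    rw [IsScalarTower.algebraMap_apply K F M, ← map_sub]
    intro h0
    have h0' := (_root_.map_eq_zero _).1 h0
    apply ht
    rw [sub_eq_zero] at h0'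
    rw [h0']
    exact isAlgebraic_algebraMap _
  have hτv : ∀ v, (p v).val (algebraMap F M t - algebraMap K M a) 0 := by
    intro v
    have h1 := (hta v).sub (Plc.val_alg (pl := p v) a)
    rwa [sub_self] at h1
  have key : ∀ z ∈ units U s, ∃ b : K, b ≠ 0 ∧ (∀ v, (p v).val z (algebraMap K _ b)) ∧
      ∀ n : ℕ, 1 ≤ n → ∃ w : M, (∀ g, s.s g w = w) ∧ z = algebraMap K M b * w ^ n := by
    rintro z ⟨hz0, hzs, hzU⟩
    have hmem : ∀ v, z ∈ (p v).W ∧ z⁻¹ ∈ (p v).W := by
      intro v
      rcases hpU v with h | h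
      · rw [h]
        exact ⟨trivial, trivial⟩
      · exact hzU _ h
    have hval : ∀ v, ∃ x : v.adicCompletion K, (p v).val z
        (algebraMap (v.adicCompletion K) (AlgebraicClosure (v.adicCompletion K)) x) := by
      intro v
      obtain ⟨c, hc⟩ := Plc.val_of_mem (hmem v).1
      obtain ⟨x, rfl⟩ := Pool.Agent.TH213.SEL.value_fixed (hp v) hzs hc
      exact ⟨x, hc⟩
    choose x hx using hval
    have hx0 : ∀ v, x v ≠ 0 := by
      intro v h0
      have h1 := hx v
      rw [h0, map_zero] at h1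
      obtain ⟨c, hc⟩ := Plc.val_of_mem (hmem v).2
      have h2 := h1.mul hc
      rw [mul_inv_cancel₀ hz0, zero_mul] at h2
      exact one_ne_zero (Plc.val_one.unique h2)
    obtain ⟨P, hP, hPr⟩ := exists_pol ⟨t, ht, hF⟩ _ hτ z
    obtain ⟨b, hb0, hb, hbz⟩ := unit_val s p hp z hz0 hzs
      (root_unram U hU e he z hz0 hzU) x hx0 hx P hP (fun v => by
        have h1 := hPr _ (p v) (hτv v) _ (hx v)
        apply (algebraMap (v.adicCompletion K)
          (AlgebraicClosure (v.adicCompletion K))).injective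
        rw [map_zero, hom_eval₂, ← IsScalarTower.algebraMap_eq]
        exact h1)
    refine ⟨b, hb0, fun v => ?_, hbz⟩
    have h1 := hx v
    rwa [hb v, ← IsScalarTower.algebraMap_apply] at h1
  have hall : ∀ z ∈ Algebra.adjoin K (units U s), ∃ b : K, ∀ v, (p v).val z (algebraMap K _ b) := by
    intro z hz
    induction hz using Algebra.adjoin_induction with
    | mem z hz =>
      obtain ⟨b, -, hb, -⟩ := key z hz
      exact ⟨b, hb⟩
    | algebraMap r => exact ⟨r, fun v => Plc.val_alg (pl := p v) r⟩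
    | add x y _ _ hx hy =>
      obtain ⟨b, hb⟩ := hx
      obtain ⟨c, hc⟩ := hy
      exact ⟨b + c, fun v => by rw [map_add]; exact (hb v).add (hc v)⟩
    | mul x y _ _ hx hy =>
      obtain ⟨b, hb⟩ := hx
      obtain ⟨c, hc⟩ := hy
      exact ⟨b * c, fun v => by rw [map_mul]; exact (hb v).mul (hc v)⟩
  obtain ⟨v0⟩ := exists_place K
  have huniq : ∀ (z : M) (b c : K), (p v0).val z (algebraMap K _ b) →
      (p v0).val z (algebraMap K _ c) → b = c := by
    intro z b c hb hc
    exact (algebraMap K (AlgebraicClosure (v0.adicCompletion K))).injective (hb.unique hc)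
  choose φ hφ using fun z : Algebra.adjoin K (units U s) => hall z z.2
  refine ⟨{ toFun := φ
            map_one' := ?_
            map_mul' := ?_
            map_zero' := ?_
            map_add' := ?_
            commutes' := ?_ }, fun v z => hφ z v, ?_⟩
  · refine huniq _ _ _ (hφ 1 v0) ?_
    rw [map_one]
    exact Plc.val_one
  · intro x y
    refine huniq _ _ _ (hφ (x * y) v0) ?_
    rw [map_mul]
    exact (hφ x v0).mul (hφ y v0)
  · refine huniq _ _ _ (hφ 0 v0) ?_
    rw [map_zero]
    exact Plc.val_zero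
  · intro x y
    refine huniq _ _ _ (hφ (x + y) v0) ?_
    rw [map_add]
    exact (hφ x v0).add (hφ y v0)
  · intro r
    exact huniq _ _ _ (hφ (algebraMap K _ r) v0) (Plc.val_alg (pl := p v0) r)
  · intro z hz n hn
    obtain ⟨b, hb0, hb, hbz⟩ := key z hz
    have hbφ : φ z = b := huniq _ _ _ (hφ z v0) (hb v0)
    obtain ⟨w, hws, hw⟩ := hbz n hn
    have hbM : algebraMap K M b ≠ 0 := (_root_.map_ne_zero _).2 hb0
    refine ⟨w, ⟨?_, hws, ?_⟩, ?_⟩
    · rintro rfl
      rw [zero_pow (by omega), mul_zero] at hw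
      exact hz.1 hw
    · refine UnitOver.of_pow (n := n) (z := (algebraMap K M b)⁻¹ * z) (by omega) ?_ ?_
      · intro W hW
        have hKW : ∀ c : K, algebraMap K M c ∈ W := by
          intro c
          have h1 := hU _ hW c
          rw [ValuationSubring.mem_comap, ← IsScalarTower.algebraMap_apply] at h1
          exact h1
        obtain ⟨h1, h2⟩ := hz.2.2 W hW
        constructor
        · rw [← map_inv₀]
          exact mul_mem (hKW _) h1
        · rw [mul_inv, inv_inv]
          exact mul_mem (hKW _) h2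
      · conv_rhs => rw [hw]
        rw [← mul_assoc, inv_mul_cancel₀ hbM, one_mul]
    · change (z : M) = algebraMap K M (φ z) * w ^ n
      rw [hbφ]
      exact hw

end Pool.Agent.U36.SC
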