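import Mathlib
import Pool.Agent.Y405.ZO.Frob

/-!
If at almost all places of a number field one of finitely many elements is an `N`-th power, then every
automorphism which fixes the `N`-th roots of unity fixes an `N`-th root of one of these elements.
-/

set_option autoImplicit false
set_option linter.unusedSectionVars false

open NumberField IsDedekindDomain Pool.Agent.W401.Cheb

namespace Pool.Agent.U36.SC

variable {L : Type} [Field L] [NumberField L]

lemma isOpen_fix (x : AlgebraicClosure L) : IsOpen {σ : GK L | σ x = x} := by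
  have h : {σ : GK L | σ x = x} =
      ((IntermediateField.adjoin L {x}).fixingSubgroup : Set (GK L)) := by
    ext σ
    simp only [Set.mem_ofPred_eq, SetLike.mem_coe]
    rw [IntermediateField.mem_fixingSubgroup_iff]
    constructor
    · intro hσ y hy
      have h1 : IntermediateField.adjoin L {x} ≤
          IntermediateField.fixedField (Subgroup.zpowers σ) := by
        rw [IntermediateField.adjoin_le_iff, Set.singleton_subset_iff]
        rw [SetLike.mem_coe, IntermediateField.mem_fixedField_iff]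
        rintro f ⟨n, rfl⟩
        have h2 : ∀ m : ℕ, (σ ^ m) x = x := by
          intro m
          induction m with
          | zero => rfl
          | succ m ih => rw [pow_succ, AlgEquiv.mul_apply, hσ, ih]
        rcases n with n | n
        · exact h2 n
        · change (σ ^ Int.negSucc n) x = x
          rw [zpow_negSucc]
          have h3 := h2 (n + 1)
          conv_lhs => rw [← h3]
          exact AlgEquiv.symm_apply_apply (σ ^ (n + 1)) x
      exact (IntermediateField.mem_fixedField_iff _ y).1 (h1 hy) σ (Subgroup.mem_zpowers σ)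
    · intro hσ
      exact hσ x (IntermediateField.mem_adjoin_simple_self L x)
  rw [h]
  have hfd : FiniteDimensional L (IntermediateField.adjoin L {x}) :=
    IntermediateField.adjoin.finiteDimensional (Algebra.IsIntegral.isIntegral x)
  exact IntermediateField.fixingSubgroup_isOpen _

lemma isOpen_move (x : AlgebraicClosure L) : IsOpen {σ : GK L | σ x ≠ x} := by
  rw [isOpen_iff_forall_mem_open]
  intro σ hσ
  refine ⟨(fun τ => σ⁻¹ * τ) ⁻¹' {τ | τ x = x}, ?_, (isOpen_fix x).preimage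
    (continuous_const_mul σ⁻¹), ?_⟩
  · intro τ hτ hτx
    apply hσ
    have h1 : (σ⁻¹ * τ) x = x := hτ
    rw [AlgEquiv.mul_apply, hτx] at h1
    have h2 := congrArg σ h1
    rw [← AlgEquiv.mul_apply, mul_inv_cancel] at h2
    exact h2.symm
  · change (σ⁻¹ * σ) x = x
    rw [inv_mul_cancel]
    rfl

theorem fix_root (N : ℕ) (hN : 0 < N) {ι : Type} [Finite ι] (c : ι → 𝓞 L) (hc : ∀ i, c i ≠ 0)
    (T : Set (HeightOneSpectrum (𝓞 L))) (hT : T.Finite)
    (h : ∀ w : HeightOneSpectrum (𝓞 L), w ∉ T → ∃ i, ∃ s : 𝓞 L, c i - s ^ N ∈ w.asIdeal)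
    (ρ : ι → AlgebraicClosure L)
    (hρ : ∀ i, ρ i ^ N = algebraMap L (AlgebraicClosure L) (c i))
    (σ : GK L) (hσ : ∀ ζ : AlgebraicClosure L, ζ ^ N = 1 → σ ζ = ζ) : ∃ i, σ (ρ i) = ρ i := by
  classical
  by_contra hno
  push Not at hno
  set Z : Finset (AlgebraicClosure L) := Polynomial.nthRootsFinset N 1 with hZ
  have hmemZ : ∀ ζ : AlgebraicClosure L, ζ ∈ Z ↔ ζ ^ N = 1 := fun ζ =>
    Polynomial.mem_nthRootsFinset hN 1
  set O' : Set (GK L) := (⋂ ζ ∈ Z, {τ | τ ζ = ζ}) ∩ ⋂ i, {τ | τ (ρ i) ≠ ρ i} with hO'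
  have hO'o : IsOpen O' := by
    refine IsOpen.inter ?_ ?_
    · exact isOpen_biInter_finset fun ζ _ => isOpen_fix ζ
    · exact isOpen_iInter_of_finite fun i => isOpen_move _
  have hσO : σ ∈ O' := by
    refine ⟨Set.mem_iInter₂.2 fun ζ hζ => hσ ζ ((hmemZ ζ).1 hζ), Set.mem_iInter.2 hno⟩
  -- the bad places
  have hfin : ∀ x : 𝓞 L, x ≠ 0 → {w : HeightOneSpectrum (𝓞 L) | x ∈ w.asIdeal}.Finite := by
    intro x hx
    have h1 := Ideal.finite_factors (R := 𝓞 L) (I := Ideal.span {x})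
      (by rwa [Ne, Ideal.zero_eq_bot, Ideal.span_singleton_eq_bot])
    refine h1.subset fun w hw => ?_
    exact Ideal.dvd_iff_le.2 ((Ideal.span_singleton_le_iff_mem _).2 hw)
  have hTfin : (T ∪ {w : HeightOneSpectrum (𝓞 L) | (N : 𝓞 L) ∈ w.asIdeal} ∪
      ⋃ i, {w : HeightOneSpectrum (𝓞 L) | c i ∈ w.asIdeal}).Finite := by
    refine (hT.union (hfin _ (Nat.cast_ne_zero.2 hN.ne'))).union ?_
    exact Set.finite_iUnion fun i => hfin _ (hc i)
  obtain ⟨v, hv, τ, hτ, hτO⟩ := Pool.Agent.Y405.ZO.frob_core L ((fun g => g⁻¹) ⁻¹' O')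
    (hO'o.preimage continuous_inv) ⟨σ⁻¹, by simpa using hσO⟩ _ hTfin
  simp only [Set.mem_union, Set.mem_iUnion, Set.mem_ofPred_eq, not_or, not_exists] at hv
  obtain ⟨⟨hvT, hvN⟩, hvc⟩ := hv
  have hτO' : τ ∈ O' := by simpa using hτO
  have hτZ : ∀ ζ : AlgebraicClosure L, ζ ^ N = 1 → τ ζ = ζ := fun ζ hζ =>
    Set.mem_iInter₂.1 hτO'.1 ζ ((hmemZ ζ).2 hζ)
  have hτρ : ∀ i, τ (ρ i) ≠ ρ i := fun i => Set.mem_iInter.1 hτO'.2 i
  obtain ⟨Q, hQm, hQv, hQ⟩ := hτ
  obtain ⟨i, s, his⟩ := h v hvT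
  have hQp : Q.IsPrime := hQm.isPrime
  have hcomap : ∀ x : 𝓞 L, algebraMap (𝓞 L) (𝓞 (AlgebraicClosure L)) x ∈ Q ↔ x ∈ v.asIdeal := by
    intro x
    rw [← hQv]
    rfl
  -- integral elements
  have hρi : IsIntegral ℤ (ρ i) := by
    refine IsIntegral.of_pow hN ?_
    rw [hρ i]
    exact (RingOfIntegers.isIntegral_coe (c i)).map (algebraMap L (AlgebraicClosure L)).toIntAlgHom
  set r : 𝓞 (AlgebraicClosure L) := ⟨ρ i, hρi⟩ with hr
  have hrN : r ^ N = algebraMap (𝓞 L) (𝓞 (AlgebraicClosure L)) (c i) := by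
    apply RingOfIntegers.ext
    change (ρ i) ^ N = _
    rw [hρ i]
    rfl
  have hc0 : algebraMap (𝓞 L) (𝓞 (AlgebraicClosure L)) (c i) ∉ Q := fun h' =>
    hvc i ((hcomap _).1 h')
  have hr0 : r ∉ Q := by
    intro h'
    apply hc0
    rw [← hrN]
    exact Q.pow_mem_of_mem h' _ hN
  -- a primitive root of unity
  have hNz : NeZero N := ⟨hN.ne'⟩
  have hNz' : NeZero (N : AlgebraicClosure L) := ⟨Nat.cast_ne_zero.2 hN.ne'⟩
  obtain ⟨ζ₀, hζ₀⟩ := HasEnoughRootsOfUnity.exists_primitiveRoot (AlgebraicClosure L) N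
  have hζ₀i : IsIntegral ℤ ζ₀ := IsIntegral.of_pow hN (by
    rw [hζ₀.pow_eq_one]
    exact isIntegral_one)
  set z₀ : 𝓞 (AlgebraicClosure L) := ⟨ζ₀, hζ₀i⟩ with hz₀
  have hz₀p : IsPrimitiveRoot z₀ N := by
    apply IsPrimitiveRoot.of_map_of_injective
      (f := algebraMap (𝓞 (AlgebraicClosure L)) (AlgebraicClosure L)) (h := ?_)
      (RingOfIntegers.coe_injective)
    exact hζ₀
  have hprod := hz₀p.pow_sub_pow_eq_prod_sub_mul (x := r)
    (y := algebraMap (𝓞 L) (𝓞 (AlgebraicClosure L)) s) hN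
  have hmem : r ^ N - algebraMap (𝓞 L) (𝓞 (AlgebraicClosure L)) s ^ N ∈ Q := by
    rw [hrN, ← map_pow, ← map_sub]
    exact (hcomap _).2 his
  rw [hprod] at hmem
  obtain ⟨z, hz, hzQ⟩ := hQp.prod_mem_iff.1 hmem
  rw [Polynomial.mem_nthRootsFinset hN] at hz
  -- apply the Frobenius element
  have hq0 : 0 < Ideal.absNorm v.asIdeal := by
    rw [Nat.pos_iff_ne_zero, Ne, Ideal.absNorm_eq_zero_iff]
    exact v.ne_bot
  have hτQ : ∀ x : 𝓞 (AlgebraicClosure L), x ∈ Q → τ • x ∈ Q := by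
    intro x hx
    have h1 := hQ x
    have h2 : x ^ Ideal.absNorm v.asIdeal ∈ Q := Q.pow_mem_of_mem hx _ hq0
    have h3 := Q.add_mem h1 h2
    rwa [sub_add_cancel] at h3
  have hτz : τ • (r - z * algebraMap (𝓞 L) (𝓞 (AlgebraicClosure L)) s) =
      τ • r - z * algebraMap (𝓞 L) (𝓞 (AlgebraicClosure L)) s := by
    rw [smul_sub, smul_mul']
    congr 2
    · apply RingOfIntegers.ext
      change τ (z : AlgebraicClosure L) = z
      apply hτZ
      have := congrArg (algebraMap (𝓞 (AlgebraicClosure L)) (AlgebraicClosure L)) hz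
      rwa [map_pow, map_one] at this
    · apply RingOfIntegers.ext
      change τ (algebraMap L (AlgebraicClosure L) (s : L)) = _
      rw [AlgEquiv.commutes]
      rfl
  have h4 : τ • r - r ∈ Q := by
    have h5 := hτQ _ hzQ
    rw [hτz] at h5
    have h6 := Q.sub_mem h5 hzQ
    have e : τ • r - z * algebraMap (𝓞 L) (𝓞 (AlgebraicClosure L)) s -
        (r - z * algebraMap (𝓞 L) (𝓞 (AlgebraicClosure L)) s) = τ • r - r := by ring
    rwa [e] at h6
  -- the root of unity
  have hρ0 : ρ i ≠ 0 := by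
    intro h0
    have h1 := hρ i
    rw [h0, zero_pow hN.ne'] at h1
    have h2 : ((c i : 𝓞 L) : L) = 0 := ((_root_.map_eq_zero _).1 h1.symm)
    exact hc i (RingOfIntegers.coe_injective (h2.trans (map_zero _).symm))
  set ω : AlgebraicClosure L := τ (ρ i) / ρ i with hω
  have hωN : ω ^ N = 1 := by
    rw [hω, div_pow, ← map_pow, hρ i, AlgEquiv.commutes, div_self]
    rw [← hρ i]
    exact pow_ne_zero _ hρ0
  have hωi : IsIntegral ℤ ω := IsIntegral.of_pow hN (by
    rw [hωN]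
    exact isIntegral_one)
  set w : 𝓞 (AlgebraicClosure L) := ⟨ω, hωi⟩ with hw
  have hτr : τ • r = w * r := by
    apply RingOfIntegers.ext
    change τ (ρ i) = ω * ρ i
    rw [hω, div_mul_cancel₀ _ hρ0]
  have h7 : (w - 1) * r ∈ Q := by
    rw [sub_mul, one_mul, ← hτr]
    exact h4
  have h8 : w - 1 ∈ Q := (hQp.mem_or_mem h7).resolve_right hr0
  have hω1 : ω ≠ 1 := by
    intro h1
    apply hτρ i
    rw [hω, div_eq_one_iff_eq hρ0] at h1
    exact h1
  have hw1 : w - 1 ≠ 0 := by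
    intro h0
    apply hω1
    have h1 := congrArg (algebraMap (𝓞 (AlgebraicClosure L)) (AlgebraicClosure L)) h0
    rw [map_sub, map_one, map_zero, sub_eq_zero] at h1
    exact h1
  have hwN : w ^ N = 1 := by
    apply RingOfIntegers.ext
    change ω ^ N = _
    rw [hωN]
    rfl
  have hgeom : ∑ j ∈ Finset.range N, w ^ j = 0 := by
    have h1 := geom_sum_mul w N
    rw [hwN, sub_self] at h1
    exact (mul_eq_zero.1 h1).resolve_right hw1
  have hNQ : (N : 𝓞 (AlgebraicClosure L)) ∈ Q := by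
    have h1 : ∑ j ∈ Finset.range N, (w ^ j - 1) ∈ Q := by
      refine Q.sum_mem fun j _ => ?_
      obtain ⟨u, hu⟩ := sub_one_dvd_pow_sub_one w j
      rw [hu]
      exact Q.mul_mem_right _ h8
    rw [Finset.sum_sub_distrib, hgeom, Finset.sum_const, Finset.card_range, nsmul_eq_mul, mul_one,
      zero_sub, neg_mem_iff] at h1
    exact h1
  apply hvN
  rw [← hcomap, map_natCast]
  exact hNQ

end Pool.Agent.U36.SC
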