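import Pool.Agent.U36.SC.Kum
import Pool.Agent.U36.BA.Basic

/-!
Finite subschemes of the multiplicative group: a family of local points of a finite set which is global
modulo all powers is one global point.
-/

set_option autoImplicit false
set_option linter.unusedSectionVars false

open NumberField IsDedekindDomain Pool.Agent.W401.Cheb Polynomial

namespace Pool.Agent.U36.SC

/-- a compatible system of classes modulo `n`-th powers -/
structure Sys {K : Type} [Field K] (b : ℕ → K) : Prop where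
  ne : ∀ n, b n ≠ 0
  comp : ∀ n m : ℕ, 1 ≤ n → 1 ≤ m → ∃ z : K, b (n * m) = b n * z ^ n

/-- pigeonhole principle for divisibility -/
theorem pig {ι : Type} [Finite ι] (Q : ι → ℕ → Prop) (h : ∀ N : ℕ, 1 ≤ N → ∃ i, Q i N)
    (hd : ∀ i (N M : ℕ), 1 ≤ N → 1 ≤ M → Q i (N * M) → Q i N) : ∃ i, ∀ N : ℕ, 1 ≤ N → Q i N := by
  obtain ⟨i₀, -⟩ := h 1 le_rfl
  have hne : Nonempty ι := ⟨i₀⟩
  choose! f hf using h
  obtain ⟨i, hi⟩ := Finite.exists_infinite_fiber (fun j : ℕ => f j.factorial)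
  have hinf : ((fun j : ℕ => f j.factorial) ⁻¹' {i}).Infinite := Set.infinite_coe_iff.1 hi
  refine ⟨i, fun N hN => ?_⟩
  obtain ⟨j, hj, hjN⟩ := hinf.exists_gt N
  have hj' : f j.factorial = i := hj
  obtain ⟨M, hM⟩ := Nat.dvd_factorial hN hjN.le
  have hM1 : 1 ≤ M := by
    rcases Nat.eq_zero_or_pos M with h0 | h0
    · rw [h0, mul_zero] at hM
      exact absurd hM (Nat.factorial_ne_zero j)
    · exact h0
  apply hd i N M hN hM1
  rw [← hM, ← hj']
  exact hf _ (Nat.factorial_pos j)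

theorem Sys.ne_comp {K : Type} [Field K] {b : ℕ → K} (hb : Sys b) {n m : ℕ} (hn : 1 ≤ n)
    {z : K} (hz : b (n * m) = b n * z ^ n) : z ≠ 0 := by
  rintro rfl
  rw [zero_pow (by omega), mul_zero] at hz
  exact hb.ne _ hz

/-- a system whose power is constant is constant -/
theorem root_sys {K : Type} [Field K] {b : ℕ → K} (hb : Sys b) {B : ℕ} (hB : 1 ≤ B) {n₀ : K}
    (hn₀ : n₀ ≠ 0) (h : ∀ N : ℕ, 1 ≤ N → ∃ y : K, b N ^ B = n₀ * y ^ N) :
    ∃ r : K, r ≠ 0 ∧ ∀ N : ℕ, 1 ≤ N → ∃ y : K, b N = r * y ^ N := by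
  classical
  have hfin : Finite {r : K // r ^ B = n₀} := by
    have h1 : (X ^ B - C n₀ : K[X]) ≠ 0 := X_pow_sub_C_ne_zero (by omega) n₀
    refine Set.Finite.to_subtype (s := {r : K | r ^ B = n₀})
      (((X ^ B - C n₀ : K[X]).roots.toFinset.finite_toSet).subset fun r hr => ?_)
    rw [Finset.mem_coe, Multiset.mem_toFinset, mem_roots h1, IsRoot.def, eval_sub, eval_pow, eval_X,
      eval_C, sub_eq_zero]
    exact hr
  obtain ⟨r, hr⟩ := pig (ι := {r : K // r ^ B = n₀}) (fun r N => ∃ y : K, b N = r.1 * y ^ N)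
    (by
      intro N hN
      obtain ⟨y, hy⟩ := h (N * B) (Nat.mul_pos hN hB)
      obtain ⟨z, hz⟩ := hb.comp N B hN hB
      have hz0 := hb.ne_comp hN hz
      have hy0 : y ≠ 0 := by
        rintro rfl
        rw [zero_pow (Nat.mul_pos hN hB).ne', mul_zero] at hy
        exact pow_ne_zero _ (hb.ne _) hy
      refine ⟨⟨b (N * B) / y ^ N, ?_⟩, y / z, ?_⟩
      · rw [div_pow, hy, ← pow_mul, mul_div_cancel_right₀ _ (pow_ne_zero _ hy0)]
      · change b N = b (N * B) / y ^ N * (y / z) ^ N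
        rw [hz, div_pow]
        field_simp)
    (by
      rintro r N M hN hM ⟨y, hy⟩
      obtain ⟨z, hz⟩ := hb.comp N M hN hM
      have hz0 := hb.ne_comp hN hz
      refine ⟨y ^ M / z, ?_⟩
      rw [hz] at hy
      rw [div_pow, ← pow_mul, mul_comm M N, mul_div_assoc', ← hy, mul_div_cancel_right₀]
      exact pow_ne_zero _ hz0)
  refine ⟨r.1, ?_, hr⟩
  intro h0
  have h1 := r.2
  rw [h0, zero_pow (by omega)] at h1
  exact hn₀ h1.symm

variable {K L : Type} [Field K] [NumberField K] [Field L] [NumberField L] [Algebra K L]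

/-- The system is constant, if locally it is one of finitely many elements. -/
theorem fs_res {ι : Type} [Fintype ι] (a : ι → L) (ha : ∀ i, a i ≠ 0) {b : ℕ → K} (hb : Sys b)
    (h : ∀ N : ℕ, 1 ≤ N → ∃ T : Set (HeightOneSpectrum (𝓞 L)), T.Finite ∧
      ∀ w : HeightOneSpectrum (𝓞 L), w ∉ T → ∃ i, ∃ s : 𝓞 L,
        w.valuation L (a i / algebraMap K L (b N) - (s : L) ^ N) < 1) :
    ∃ r : K, r ≠ 0 ∧ ∀ N : ℕ, 1 ≤ N → ∃ y : K, b N = r * y ^ N := by
  classical
  set N' : ℕ := (2 ^ (Module.finrank ℚ L).factorial - 1) *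
      (3 ^ (Module.finrank ℚ L).factorial - 1) with hN'
  set A : ℕ := (Fintype.card ι).factorial * N' with hA
  have hN'0 : 1 ≤ N' := by
    have hE : 1 ≤ (Module.finrank ℚ L).factorial := Nat.factorial_pos _
    have h2 : 1 < 2 ^ (Module.finrank ℚ L).factorial := Nat.one_lt_two_pow (by omega)
    have h3 : 1 < 3 ^ (Module.finrank ℚ L).factorial := Nat.one_lt_pow (by omega) (by norm_num)
    exact Nat.mul_pos (by omega) (by omega)
  have hA0 : 1 ≤ A := Nat.mul_pos (Nat.factorial_pos _) hN'0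
  have hfd : FiniteDimensional K L := Module.Finite.of_restrictScalars_finite ℚ K L
  set d := Module.finrank K L with hd
  have hd0 : 0 < d := Module.finrank_pos
  have key : ∀ N : ℕ, 1 ≤ N → ∃ i, ∃ y : K, b N ^ (A * d) = Algebra.norm K (a i) ^ A * y ^ N := by
    intro N hN
    have hbL : algebraMap K L (b N) ≠ 0 := (_root_.map_ne_zero _).2 (hb.ne N)
    obtain ⟨T, hT, hw⟩ := h N hN
    obtain ⟨D, hD0, hD⟩ := exists_integral_multiples ℤ ℚ (L := L)
      (Finset.univ.image fun i => a i / algebraMap K L (b N))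
    have hDL : (D : L) ≠ 0 := Int.cast_ne_zero.2 hD0
    have hint : ∀ i, IsIntegral ℤ ((D : L) ^ N * (a i / algebraMap K L (b N))) := by
      intro i
      have h1 := hD _ (Finset.mem_image_of_mem (fun i => a i / algebraMap K L (b N))
        (Finset.mem_univ i))
      rw [zsmul_eq_mul] at h1
      obtain ⟨M, rfl⟩ : ∃ M, N = M + 1 := ⟨N - 1, by omega⟩
      have h2 : IsIntegral ℤ (D : L) := isIntegral_algebraMap (R := ℤ) (x := D)
      rw [pow_succ, mul_assoc]
      exact (h2.pow M).mul h1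
    let c : ι → 𝓞 L := fun i => ⟨_, hint i⟩
    have hcc : ∀ i, ((c i : 𝓞 L) : L) = (D : L) ^ N * (a i / algebraMap K L (b N)) := fun i => rfl
    have hc0' : ∀ i, ((c i : 𝓞 L) : L) ≠ 0 := fun i => by
      rw [hcc]
      exact mul_ne_zero (pow_ne_zero _ hDL) (div_ne_zero (ha i) hbL)
    have hc0 : ∀ i, c i ≠ 0 := fun i h0 => hc0' i (by rw [h0]; rfl)
    have hex : ∀ i, ∃ ρ : AlgebraicClosure L, ρ ^ N = algebraMap L (AlgebraicClosure L) (c i) :=
      fun i => IsAlgClosed.exists_pow_nat_eq _ hN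
    choose ρ hρ using hex
    obtain ⟨i, hi⟩ := pow_fixed N hN c hc0 T hT (by
      intro w hwT
      obtain ⟨i, s, hs⟩ := hw w hwT
      refine ⟨i, (D : 𝓞 L) * s, ?_⟩
      rw [← w.valuation_lt_one_iff_mem (K := L)]
      change w.valuation L (algebraMap (𝓞 L) L (c i - ((D : 𝓞 L) * s) ^ N)) < 1
      have e : algebraMap (𝓞 L) L (c i - ((D : 𝓞 L) * s) ^ N) =
          (algebraMap (𝓞 L) L (D : 𝓞 L)) ^ N * (a i / algebraMap K L (b N) - (s : L) ^ N) := by
        rw [map_sub, map_pow, map_mul]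
        change (D : L) ^ N * (a i / algebraMap K L (b N)) - _ = _
        rw [map_intCast]
        change _ - ((D : L) * (s : L)) ^ N = _
        ring
      rw [e, map_mul, map_pow]
      refine mul_lt_one_of_nonneg_of_lt_one_right ?_ zero_le hs
      exact pow_le_one₀ zero_le (w.valuation_le_one _)) ρ hρ
    obtain ⟨y, hy⟩ := descend (L := L) N hN ((c i : L) ^ (Fintype.card ι).factorial)
      (pow_ne_zero _ (hc0' i)) (ρ i ^ (Fintype.card ι).factorial)
      (by rw [← pow_mul, mul_comm, pow_mul, hρ, map_pow]) hi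
    rw [← pow_mul, ← hN', ← hA, hcc, mul_pow] at hy
    have hy0 : y ≠ 0 := by
      rintro rfl
      rw [zero_pow (by omega)] at hy
      exact mul_ne_zero (pow_ne_zero _ (pow_ne_zero _ hDL))
        (pow_ne_zero _ (div_ne_zero (ha i) hbL)) hy
    refine ⟨i, Algebra.norm K ((D : L) ^ A / y), ?_⟩
    have h1 : algebraMap K L (b N) ^ A = a i ^ A * ((D : L) ^ A / y) ^ N := by
      rw [div_pow ((D : L) ^ A) y N, ← hy, div_pow, ← pow_mul, ← pow_mul, mul_comm A N]
      have h11 := pow_ne_zero (N * A) hDL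
      have h12 := pow_ne_zero A (ha i)
      have h13 := pow_ne_zero A hbL
      field_simp
    have h2 := congrArg (Algebra.norm K) h1
    rw [map_pow, Algebra.norm_algebraMap, map_mul, map_pow, map_pow (Algebra.norm K) _ N] at h2
    rw [← h2, ← pow_mul, mul_comm]
  obtain ⟨i, hi⟩ := pig (fun i N => ∃ y : K, b N ^ (A * d) = Algebra.norm K (a i) ^ A * y ^ N) key
    (by
      rintro i N M hN hM ⟨y, hy⟩
      obtain ⟨z, hz⟩ := hb.comp N M hN hM
      have hz0 := hb.ne_comp hN hz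
      refine ⟨y ^ M / z ^ (A * d), ?_⟩
      rw [hz, mul_pow, ← pow_mul] at hy
      rw [div_pow, ← pow_mul, ← pow_mul, mul_comm M N, mul_div_assoc', ← hy, mul_comm (A * d) N,
        mul_div_cancel_right₀]
      exact pow_ne_zero _ hz0)
  exact root_sys hb (Nat.mul_pos hA0 hd0) (pow_ne_zero _ (by
    rw [Ne, Algebra.norm_eq_zero_iff]
    exact ha i)) hi

/-- infinitely divisible elements of the completions are trivial -/
theorem eq_one_of_div (v : HeightOneSpectrum (𝓞 K)) (u : v.adicCompletion K)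
    (h : ∀ N : ℕ, 1 ≤ N → ∃ z : v.adicCompletion K, u = z ^ N) (hu : u ≠ 0) : u = 1 := by
  have hV0 : Valued.v u ≠ 0 := (Valuation.ne_zero_iff _).2 hu
  have hval : ∀ N : ℕ, 1 ≤ N → ∀ z : v.adicCompletion K, u = z ^ N →
      Valued.v u = 1 := by
    intro N hN z hz
    have h1 : WithZero.log (Valued.v u) = 0 := by
      obtain ⟨y, hy⟩ := h ((WithZero.log (Valued.v u)).natAbs + 1) (by omega)
      have h2 := congrArg (fun x => WithZero.log (Valued.v x)) hy
      simp only [map_pow, WithZero.log_pow] at h2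
      have h3 : (((WithZero.log (Valued.v u)).natAbs + 1 : ℕ) : ℤ) ∣ WithZero.log (Valued.v u) := by
        conv_rhs => rw [h2]
        rw [nsmul_eq_mul]
        exact dvd_mul_right _ _
      by_contra h4
      have h5 := Int.natAbs_dvd_natAbs.2 h3
      rw [Int.natAbs_natCast] at h5
      have h6 := Nat.le_of_dvd (Int.natAbs_pos.2 h4) h5
      omega
    rw [← WithZero.exp_log hV0, h1, WithZero.exp_zero]
  have hclose : ∀ q : 𝓞 K, q ≠ 0 → Valued.v (u - 1) ≤ v.valuation K (algebraMap (𝓞 K) K q) := by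
    intro q hq
    obtain ⟨e, he0, he⟩ := Pool.Agent.U36.BA.pow_near_one q hq
    obtain ⟨z, hz⟩ := h e he0
    have h1 := hval e he0 z hz
    rw [hz, map_pow] at h1
    have h2 : Valued.v z = 1 := (pow_eq_one_iff.1 h1).resolve_right he0.ne'
    have h3 := he v z h2
    rwa [← hz] at h3
  by_contra hne
  have h0 : Valued.v (u - 1) ≠ 0 := (Valuation.ne_zero_iff _).2 (sub_ne_zero.2 hne)
  obtain ⟨n, hn, hn0⟩ : ∃ n : ℕ, (n : 𝓞 K) ∈ v.asIdeal ∧ n ≠ 0 := by
    refine ⟨Ideal.absNorm v.asIdeal, Ideal.absNorm_mem v.asIdeal, ?_⟩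
    rw [Ne, Ideal.absNorm_eq_zero_iff]
    exact v.ne_bot
  have h2 : v.valuation K (algebraMap (𝓞 K) K (n : 𝓞 K)) < 1 := (v.valuation_lt_one_iff_mem _).2 hn
  obtain ⟨m, hm⟩ := exists_pow_lt₀ h2 (Units.mk0 _ h0)
  have h3 := hclose ((n : 𝓞 K) ^ m) (pow_ne_zero _ (Nat.cast_ne_zero.2 hn0))
  rw [map_pow, map_pow] at h3
  exact absurd hm (not_lt.2 h3)

end Pool.Agent.U36.SC
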