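import Pool.Agent.U36.SC.Cheb

/-!
Kummer theory: elements which are powers over a cyclotomic extension.
-/

set_option autoImplicit false
set_option linter.unusedSectionVars false

open NumberField IsDedekindDomain Pool.Agent.W401.Cheb
open scoped Pointwise

namespace Pool.Agent.U36.SC

variable {L : Type} [Field L] [NumberField L]

/-- the automorphisms which fix the `N`-th roots of unity -/
def HN (L : Type) [Field L] (N : ℕ) : Subgroup (GK L) where
  carrier := {σ | ∀ ζ : AlgebraicClosure L, ζ ^ N = 1 → σ ζ = ζ}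
  mul_mem' := by
    intro a b ha hb ζ hζ
    rw [AlgEquiv.mul_apply, hb ζ hζ, ha ζ hζ]
  one_mem' := fun ζ _ => rfl
  inv_mem' := by
    intro a ha ζ hζ
    have h1 := ha ζ hζ
    conv_lhs => rw [← h1]
    exact AlgEquiv.symm_apply_apply a ζ

lemma mem_HN {N : ℕ} {σ : GK L} :
    σ ∈ HN L N ↔ ∀ ζ : AlgebraicClosure L, ζ ^ N = 1 → σ ζ = ζ := Iff.rfl

/-- the automorphisms in `HN` which fix `x` -/
def stab (L : Type) [Field L] (N : ℕ) (x : AlgebraicClosure L) : Subgroup (HN L N) where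
  carrier := {σ | σ.1 x = x}
  mul_mem' := by
    intro a b ha hb
    change (a.1 * b.1) x = x
    rw [AlgEquiv.mul_apply, hb, ha]
  one_mem' := rfl
  inv_mem' := by
    intro a ha
    change (a.1⁻¹) x = x
    have h1 : a.1 x = x := ha
    conv_lhs => rw [← h1]
    exact AlgEquiv.symm_apply_apply a.1 x

/-- One of the elements has order at most `m` modulo `N`-th powers. -/
theorem pow_fixed (N : ℕ) (hN : 0 < N) {ι : Type} [Fintype ι] (c : ι → 𝓞 L) (hc : ∀ i, c i ≠ 0)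
    (T : Set (HeightOneSpectrum (𝓞 L))) (hT : T.Finite)
    (h : ∀ w : HeightOneSpectrum (𝓞 L), w ∉ T → ∃ i, ∃ s : 𝓞 L, c i - s ^ N ∈ w.asIdeal)
    (ρ : ι → AlgebraicClosure L)
    (hρ : ∀ i, ρ i ^ N = algebraMap L (AlgebraicClosure L) (c i)) :
    ∃ i, ∀ σ ∈ HN L N, σ (ρ i ^ (Fintype.card ι).factorial) = ρ i ^ (Fintype.card ι).factorial := by
  classical
  have hcov : ⋃ i ∈ (Finset.univ : Finset ι), (1 : HN L N) • (stab L N (ρ i) : Set (HN L N)) =
      Set.univ := by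
    apply Set.eq_univ_of_forall
    intro σ
    obtain ⟨i, hi⟩ := fix_root N hN c hc T hT h ρ hρ σ.1 σ.2
    refine Set.mem_iUnion₂.2 ⟨i, Finset.mem_univ i, ?_⟩
    rw [one_smul]
    exact hi
  obtain ⟨i, -, hfi, hle⟩ := Subgroup.exists_index_le_card_of_leftCoset_cover hcov
  refine ⟨i, fun σ hσ => ?_⟩
  obtain ⟨k, hk0, hk1, hk2⟩ := Subgroup.exists_pow_mem_of_index_ne_zero hfi.index_ne_zero
    (⟨σ, hσ⟩ : HN L N)
  have hρ0 : ρ i ≠ 0 := by
    intro h0
    have h1 := hρ i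
    rw [h0, zero_pow hN.ne'] at h1
    have h2 : ((c i : 𝓞 L) : L) = 0 := ((_root_.map_eq_zero _).1 h1.symm)
    exact hc i (RingOfIntegers.coe_injective (h2.trans (map_zero _).symm))
  set ω : AlgebraicClosure L := σ (ρ i) / ρ i with hω
  have hωN : ω ^ N = 1 := by
    rw [hω, div_pow, ← map_pow, hρ i, AlgEquiv.commutes, div_self]
    rw [← hρ i]
    exact pow_ne_zero _ hρ0
  have hσρ : σ (ρ i) = ω * ρ i := by rw [hω, div_mul_cancel₀ _ hρ0]
  have hpow : ∀ j : ℕ, (σ ^ j) (ρ i) = ω ^ j * ρ i := by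
    intro j
    induction j with
    | zero => simp
    | succ j ih =>
      rw [pow_succ', AlgEquiv.mul_apply, ih, map_mul, map_pow, hσ ω hωN, hσρ]
      ring
  have h1 : (σ ^ k) (ρ i) = ρ i := hk2
  rw [hpow] at h1
  have h2 : ω ^ k = 1 := by
    have h3 : ω ^ k * ρ i = 1 * ρ i := by rw [h1, one_mul]
    exact mul_right_cancel₀ hρ0 h3
  obtain ⟨f, hf⟩ := Nat.dvd_factorial hk0 (hk1.trans (hle.trans_eq Finset.card_univ))
  rw [map_pow, hσρ, mul_pow, hf, pow_mul ω, h2, one_pow, one_mul]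

/-- numbers for the congruences -/
lemma exists_xt (E N : ℕ) (hN : 0 < N) :
    ∃ x t : ℕ, x.Coprime N ∧ t * x ^ E ≡ t + (2 ^ E - 1) * (3 ^ E - 1) [MOD N] := by
  obtain ⟨a, M, hM, rfl⟩ := Nat.exists_eq_two_pow_mul_odd hN.ne'
  have hcop : Nat.Coprime (2 ^ a) M := by
    apply Nat.Coprime.pow_left
    exact (Nat.coprime_two_left).2 hM
  obtain ⟨x, hx1, hx2⟩ := Nat.chineseRemainder (Nat.Coprime.pow_left (a + 1)
    ((Nat.coprime_two_left).2 hM)) 3 2
  obtain ⟨t, ht1, ht2⟩ := Nat.chineseRemainder hcop (2 ^ E - 1) (3 ^ E - 1)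
  have h2 : 1 ≤ 2 ^ E := Nat.one_le_two_pow
  have h3 : 1 ≤ 3 ^ E := Nat.one_le_pow _ _ (by norm_num)
  refine ⟨x, t, ?_, ?_⟩
  · apply Nat.Coprime.mul_right
    · apply Nat.Coprime.pow_right
      have h4 : x ≡ 3 [MOD 2] := hx1.of_dvd (dvd_pow_self 2 (Nat.succ_ne_zero a))
      rw [Nat.coprime_two_right, Nat.odd_iff]
      exact h4
    · have h4 := hx2.gcd_eq
      rw [Nat.Coprime, h4]
      exact (Nat.coprime_two_left).2 hM
  · rw [← Nat.modEq_and_modEq_iff_modEq_mul hcop]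
    have hx1' : x ≡ 3 [MOD 2 ^ a] := hx1.of_dvd (pow_dvd_pow 2 (Nat.le_succ a))
    constructor
    · have h5 : t * x ^ E ≡ (2 ^ E - 1) * 3 ^ E [MOD 2 ^ a] := ht1.mul (hx1'.pow E)
      have h6 : t + (2 ^ E - 1) * (3 ^ E - 1) ≡ (2 ^ E - 1) + (2 ^ E - 1) * (3 ^ E - 1)
        [MOD 2 ^ a] := ht1.add_right _
      refine h5.trans (Nat.ModEq.trans ?_ h6.symm)
      have e : (2 ^ E - 1) * 3 ^ E = (2 ^ E - 1) + (2 ^ E - 1) * (3 ^ E - 1) := by
        conv_lhs => rw [show 3 ^ E = 1 + (3 ^ E - 1) by omega]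
        ring
      rw [e]
    · have h5 : t * x ^ E ≡ (3 ^ E - 1) * 2 ^ E [MOD M] := ht2.mul (hx2.pow E)
      have h6 : t + (2 ^ E - 1) * (3 ^ E - 1) ≡ (3 ^ E - 1) + (2 ^ E - 1) * (3 ^ E - 1)
        [MOD M] := ht2.add_right _
      refine h5.trans (Nat.ModEq.trans ?_ h6.symm)
      have e : (3 ^ E - 1) * 2 ^ E = (3 ^ E - 1) + (2 ^ E - 1) * (3 ^ E - 1) := by
        conv_lhs => rw [show 2 ^ E = 1 + (2 ^ E - 1) by omega]
        ring
      rw [e]

/-- an automorphism with given cyclotomic character -/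
theorem exists_g (N : ℕ) (hN : 0 < N) (x : ℕ) (hx : x.Coprime N) :
    ∃ g : GK L, ∀ ζ : AlgebraicClosure L, ζ ^ N = 1 →
      g ζ = ζ ^ (x ^ (Module.finrank ℚ L).factorial) := by
  classical
  have hNz : NeZero N := ⟨hN.ne'⟩
  have hNz' : NeZero (N : AlgebraicClosure L) := ⟨Nat.cast_ne_zero.2 hN.ne'⟩
  obtain ⟨ζ₀, hζ₀⟩ := HasEnoughRootsOfUnity.exists_primitiveRoot (AlgebraicClosure L) N
  have halg : Algebra.IsAlgebraic ℚ (AlgebraicClosure L) :=
    Algebra.IsAlgebraic.trans ℚ L (AlgebraicClosure L)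
  have hnorm : Normal ℚ (AlgebraicClosure L) := by
    rw [normal_iff]
    intro y
    exact ⟨Algebra.IsIntegral.isIntegral y, IsAlgClosed.splits _⟩
  have hmin : minpoly ℚ ζ₀ = minpoly ℚ (ζ₀ ^ x) := by
    have h1 := hζ₀.minpoly_eq_pow_coprime hx
    have h2 : IsIntegral ℤ ζ₀ := hζ₀.isIntegral hN
    rw [minpoly.isIntegrallyClosed_eq_field_fractions' ℚ h2,
      minpoly.isIntegrallyClosed_eq_field_fractions' ℚ (h2.pow x)]
    exact congrArg _ h1
  obtain ⟨σ, hσ⟩ := minpoly.exists_algEquiv_of_root' (K := ℚ) (L := AlgebraicClosure L)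
    (x := ζ₀ ^ x) (y := ζ₀) (Algebra.IsAlgebraic.isAlgebraic _) (by
      rw [hmin]
      exact minpoly.aeval _ _)
  -- a power of `σ` fixes `L`
  let i₀ : L →ₐ[ℚ] AlgebraicClosure L := IsScalarTower.toAlgHom ℚ L (AlgebraicClosure L)
  let emb : ℕ → (L →ₐ[ℚ] AlgebraicClosure L) := fun j => ((σ ^ j).toAlgHom).comp i₀
  obtain ⟨k, hk0, hk1, hk⟩ : ∃ k, 0 < k ∧ k ≤ Module.finrank ℚ L ∧
      ∀ y : L, (σ ^ k) (algebraMap L _ y) = algebraMap L _ y := by
    have hcard : Fintype.card (L →ₐ[ℚ] AlgebraicClosure L) < Fintype.card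
        (Fin (Module.finrank ℚ L + 1)) := by
      rw [AlgHom.card, Fintype.card_fin]
      exact Nat.lt_succ_self _
    obtain ⟨a, b, hab, hf⟩ := Fintype.exists_ne_map_eq_of_card_lt
      (fun j : Fin (Module.finrank ℚ L + 1) => emb (j : ℕ)) hcard
    have key : ∀ a b : ℕ, a < b → b ≤ Module.finrank ℚ L → emb a = emb b →
        ∃ k, 0 < k ∧ k ≤ Module.finrank ℚ L ∧
      ∀ y : L, (σ ^ k) (algebraMap L _ y) = algebraMap L _ y := by
      intro a b hab hb he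
      refine ⟨b - a, by omega, by omega, fun y => ?_⟩
      have h1 := DFunLike.congr_fun he y
      change (σ ^ a) (algebraMap L _ y) = (σ ^ b) (algebraMap L _ y) at h1
      have h2 : σ ^ b = σ ^ a * σ ^ (b - a) := by
        rw [← pow_add]
        congr 1
        omega
      rw [h2, AlgEquiv.mul_apply] at h1
      exact ((σ ^ a).injective h1).symm
    have hab' : (a : ℕ) ≠ b := fun h => hab (Fin.ext h)
    rcases lt_or_gt_of_ne hab' with h | h
    · exact key a b h (Nat.lt_succ_iff.1 b.2) hf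
    · exact key b a h (Nat.lt_succ_iff.1 a.2) hf.symm
  set E := (Module.finrank ℚ L).factorial with hE
  obtain ⟨f, hf⟩ := Nat.dvd_factorial hk0 hk1
  have hfix : ∀ y : L, (σ ^ E) (algebraMap L _ y) = algebraMap L _ y := by
    intro y
    rw [hE, hf, pow_mul]
    have : ∀ m : ℕ, ((σ ^ k) ^ m) (algebraMap L (AlgebraicClosure L) y) = algebraMap L _ y := by
      intro m
      induction m with
      | zero => rfl
      | succ m ih => rw [pow_succ, AlgEquiv.mul_apply, hk, ih]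
    exact this f
  refine ⟨AlgEquiv.ofRingEquiv (f := (σ ^ E : AlgebraicClosure L ≃ₐ[ℚ] AlgebraicClosure L).toRingEquiv) hfix, fun ζ hζ => ?_⟩
  change (σ ^ E) ζ = _
  obtain ⟨j, -, rfl⟩ := hζ₀.eq_pow_of_pow_eq_one hζ
  have h1 : ∀ m : ℕ, (σ ^ m) ζ₀ = ζ₀ ^ (x ^ m) := by
    intro m
    induction m with
    | zero => simp
    | succ m ih =>
      rw [pow_succ', AlgEquiv.mul_apply, ih, map_pow, hσ, ← pow_mul, pow_succ']
  rw [map_pow, h1, ← pow_mul, ← pow_mul, mul_comm]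

/-- Elements which are powers over the cyclotomic extension are nearly powers. -/
theorem descend (N : ℕ) (hN : 0 < N) (c : L) (hc : c ≠ 0) (ρ : AlgebraicClosure L)
    (hρ : ρ ^ N = algebraMap L _ c) (hfix : ∀ σ ∈ HN L N, σ ρ = ρ) :
    ∃ y : L, c ^ ((2 ^ (Module.finrank ℚ L).factorial - 1) *
      (3 ^ (Module.finrank ℚ L).factorial - 1)) = y ^ N := by
  classical
  set E := (Module.finrank ℚ L).factorial with hE
  set N' := (2 ^ E - 1) * (3 ^ E - 1) with hN'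
  obtain ⟨x, t, hx, hxt⟩ := exists_xt E N hN
  obtain ⟨g, hg⟩ := exists_g (L := L) N hN x hx
  rw [← hE] at hg
  have hcL : algebraMap L (AlgebraicClosure L) c ≠ 0 := (_root_.map_ne_zero _).2 hc
  have hρ0 : ρ ≠ 0 := by
    rintro rfl
    rw [zero_pow hN.ne'] at hρ
    exact hcL hρ.symm
  have hroot : ∀ σ : GK L, (σ ρ / ρ) ^ N = 1 := by
    intro σ
    rw [div_pow, ← map_pow, hρ, AlgEquiv.commutes, div_self hcL]
  have hmul : ∀ σ : GK L, σ ρ = (σ ρ / ρ) * ρ := fun σ => (div_mul_cancel₀ _ hρ0).symm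
  -- powers of roots of unity
  have hmod : ∀ ω : AlgebraicClosure L, ω ^ N = 1 → ∀ a b : ℕ, a ≡ b [MOD N] → ω ^ a = ω ^ b := by
    intro ω hω a b hab
    rw [pow_eq_pow_mod a hω, pow_eq_pow_mod b hω, hab]
  have hNne : ∀ ω : AlgebraicClosure L, ω ^ N = 1 → ω ≠ 0 := by
    rintro ω hω rfl
    rw [zero_pow hN.ne'] at hω
    exact zero_ne_one hω
  set ωg : AlgebraicClosure L := g ρ / ρ with hωg
  have hωgN : ωg ^ N = 1 := hroot g
  -- the roots of unity are permuted by every automorphism by a power map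
  have hNz : NeZero N := ⟨hN.ne'⟩
  have hNz' : NeZero (N : AlgebraicClosure L) := ⟨Nat.cast_ne_zero.2 hN.ne'⟩
  obtain ⟨ζ₀, hζ₀⟩ := HasEnoughRootsOfUnity.exists_primitiveRoot (AlgebraicClosure L) N
  have hchar : ∀ τ : GK L, ∃ k : ℕ, ∀ ζ : AlgebraicClosure L, ζ ^ N = 1 → τ ζ = ζ ^ k := by
    intro τ
    have h1 : (τ ζ₀) ^ N = 1 := by rw [← map_pow, hζ₀.pow_eq_one, map_one]
    obtain ⟨k, -, hk⟩ := hζ₀.eq_pow_of_pow_eq_one h1
    refine ⟨k, fun ζ hζ => ?_⟩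
    obtain ⟨j, -, rfl⟩ := hζ₀.eq_pow_of_pow_eq_one hζ
    rw [map_pow, ← hk, ← pow_mul, ← pow_mul, mul_comm]
  have hcomm : ∀ τ : GK L, g (τ ρ) = τ (g ρ) := by
    intro τ
    have h1 : (τ * g)⁻¹ * (g * τ) ∈ HN L N := by
      intro ζ hζ
      obtain ⟨k, hk⟩ := hchar τ
      have h2 : (g * τ) ζ = (τ * g) ζ := by
        rw [AlgEquiv.mul_apply, AlgEquiv.mul_apply, hk ζ hζ, map_pow, hg ζ hζ, map_pow, hk ζ hζ,
          ← pow_mul, ← pow_mul, mul_comm]
      rw [AlgEquiv.mul_apply, h2, ← AlgEquiv.mul_apply, inv_mul_cancel]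
      rfl
    have h2 := hfix _ h1
    rw [AlgEquiv.mul_apply] at h2
    have h3 := congrArg (τ * g) h2
    rw [← AlgEquiv.mul_apply, mul_inv_cancel] at h3
    exact h3
  have hkey : ∀ τ : GK L, τ (ρ ^ N' / ωg ^ t) = ρ ^ N' / ωg ^ t := by
    intro τ
    set ω : AlgebraicClosure L := τ ρ / ρ with hω
    have hωN : ω ^ N = 1 := hroot τ
    have h1 : g ω * ωg = τ ωg * ω := by
      have h2 := hcomm τ
      rw [hmul τ, hmul g, ← hω, ← hωg, map_mul, map_mul, hmul g, ← hωg, hmul τ, ← hω, ← mul_assoc,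
        ← mul_assoc] at h2
      exact mul_right_cancel₀ hρ0 h2
    rw [hg ω hωN] at h1
    have h3 : ω ^ (t * x ^ E) * ωg ^ t = (τ ωg) ^ t * ω ^ t := by
      have := congrArg (fun z => z ^ t) h1
      simp only [mul_pow] at this
      rw [← pow_mul, mul_comm (x ^ E) t] at this
      exact this
    have h4 : ω ^ (t * x ^ E) = ω ^ (t + N') := hmod ω hωN _ _ hxt
    rw [h4, pow_add] at h3
    have h5 : ω ^ N' * ωg ^ t = (τ ωg) ^ t := by
      have h6 : ω ^ t * (ω ^ N' * ωg ^ t) = ω ^ t * (τ ωg) ^ t := by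
        rw [← mul_assoc, h3, mul_comm]
      exact mul_left_cancel₀ (pow_ne_zero _ (hNne ω hωN)) h6
    rw [map_div₀, map_pow, map_pow, hmul τ, ← hω, mul_pow, ← h5]
    have h7 : ω ^ N' ≠ 0 := pow_ne_zero _ (hNne ω hωN)
    rw [mul_div_mul_left _ _ h7]
  obtain ⟨y, hy⟩ : ∃ y : L, algebraMap L (AlgebraicClosure L) y = ρ ^ N' / ωg ^ t := by
    have h1 := (InfiniteGalois.mem_range_algebraMap_iff_fixed (k := L) (K := AlgebraicClosure L)
      (ρ ^ N' / ωg ^ t)).2 hkey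
    exact h1
  refine ⟨y, ?_⟩
  apply (algebraMap L (AlgebraicClosure L)).injective
  have e1 : (ρ ^ N') ^ N = algebraMap L (AlgebraicClosure L) c ^ N' := by
    rw [← hρ, ← pow_mul, ← pow_mul, mul_comm]
  have e2 : (ωg ^ t) ^ N = 1 := by
    rw [← pow_mul, mul_comm, pow_mul, hωgN, one_pow]
  rw [map_pow, map_pow, hy, div_pow, e1, e2, div_one]

end Pool.Agent.U36.SC
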